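import Pool.Agent.Y393.JiaStrong

/-!
Strong form of the answer to Jia's question: already the short cycle lengths `3, …, L(C, M)`, with
at most `M` of them missing, force the cyclomatic number of a graph to exceed the logarithm of the
number of its cycle lengths by `C`.
-/

set_option autoImplicit false

open Filter Jia

namespace Pool.Agent.Results.MP_45f6a5_co.LocalObstruction

/-- The set of the lengths of the cycles of `G`. -/
def cycleLengths {V : Type} (G : SimpleGraph V) : Set ℕ :=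
  {k | ∃ (v : V) (p : G.Walk v v), p.IsCycle ∧ p.length = k}

/-- The number of integers `k` with `3 ≤ k ≤ L` which are not the length of a cycle of `G`. -/
noncomputable def missing {V : Type} (G : SimpleGraph V) (L : ℕ) : ℕ :=
  {k : ℕ | 3 ≤ k ∧ k ≤ L ∧ k ∉ cycleLengths G}.ncard

/-- The length of a longest cycle of `G` (`0` if there is none). -/
noncomputable def circumference {V : Type} (G : SimpleGraph V) : ℕ := sSup (cycleLengths G)

/-- The cyclomatic number: number of edges minus number of vertices plus number of connected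
components, as a real number. -/
noncomputable def cyclomatic {N : ℕ} (G : SimpleGraph (Fin N)) : ℝ :=
  (G.edgeSet.ncard : ℝ) - N + (Nat.card G.ConnectedComponent : ℝ)

/-- Jia's function `g n`: the minimum number of edges of a finite simple graph which has a cycle of
every length `3, …, n`. -/
noncomputable def g (n : ℕ) : ℕ :=
  sInf {m : ℕ | ∃ (N : ℕ) (G : SimpleGraph (Fin N)),
    G.edgeSet.ncard = m ∧ ∀ k : ℕ, 3 ≤ k → k ≤ n → k ∈ cycleLengths G}

/-- The minimum number of edges of a finite simple graph which has cycles of all lengths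
`3, …, n` with at most `M` exceptions. -/
noncomputable def gExc (M n : ℕ) : ℕ :=
  sInf {m : ℕ | ∃ (N : ℕ) (G : SimpleGraph (Fin N)), G.edgeSet.ncard = m ∧ missing G n ≤ M}

/-! ### proofs -/

theorem missing_finite {V : Type} (G : SimpleGraph V) (L : ℕ) :
    {k : ℕ | 3 ≤ k ∧ k ≤ L ∧ k ∉ cycleLengths G}.Finite :=
  (Set.finite_Icc 3 L).subset (fun _ hk => ⟨hk.1, hk.2.1⟩)

theorem missing_mono {V : Type} (G : SimpleGraph V) {L L' : ℕ} (h : L ≤ L') :
    missing G L ≤ missing G L' :=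
  Set.ncard_le_ncard (fun _ hk => ⟨hk.1, hk.2.1.trans h, hk.2.2⟩) (missing_finite G L')

/-- among more than `M` lengths in `[3, L]` one is present -/
theorem exists_present {V : Type} (G : SimpleGraph V) {L M a : ℕ} (hM : missing G L ≤ M)
    (ha : 3 ≤ a) (haL : a + M ≤ L) : ∃ k ∈ cycleLengths G, a ≤ k ∧ k ≤ L := by
  by_contra hcon
  push Not at hcon
  have hsub : (Finset.Icc a L : Set ℕ) ⊆ {k : ℕ | 3 ≤ k ∧ k ≤ L ∧ k ∉ cycleLengths G} := by
    intro k hk
    rw [Finset.mem_coe, Finset.mem_Icc] at hk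
    refine ⟨ha.trans hk.1, hk.2, fun h => ?_⟩
    have := hcon k h hk.1
    omega
  have h1 := Set.ncard_le_ncard hsub (missing_finite G L)
  rw [Set.ncard_coe_finset, Nat.card_Icc] at h1
  unfold missing at hM
  omega

/-- the edge set as a finset -/
noncomputable def eF {N : ℕ} (G : SimpleGraph (Fin N)) : Finset (Sym2 (Fin N)) :=
  (Set.toFinite G.edgeSet).toFinset

theorem mem_eF {N : ℕ} (G : SimpleGraph (Fin N)) (e : Sym2 (Fin N)) : e ∈ eF G ↔ e ∈ G.edgeSet := by
  unfold eF; rw [Set.Finite.mem_toFinset]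

theorem card_eF {N : ℕ} (G : SimpleGraph (Fin N)) : (eF G).card = G.edgeSet.ncard := by
  rw [Set.ncard_eq_toFinset_card G.edgeSet (Set.toFinite G.edgeSet)]; rfl

theorem eF_NL {N : ℕ} (G : SimpleGraph (Fin N)) : NL (eF G) := by
  intro e he
  exact G.not_isDiag_of_mem_edgeSet ((mem_eF G e).1 he)

theorem cyc_eF {N : ℕ} (G : SimpleGraph (Fin N)) {k : ℕ} (hk : k ∈ cycleLengths G) :
    ∃ Z ⊆ eF G, IsCyc Z ∧ Z.card = k := by
  obtain ⟨v, p, hp, hpl⟩ := hk
  obtain ⟨h1, h2, h3⟩ := cyc_of_walk p hp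
  exact ⟨p.edges.toFinset, fun e he => (mem_eF G e).2 (h3 e he), h1, h2.trans hpl⟩

theorem cycleLengths_sub {N : ℕ} (G : SimpleGraph (Fin N)) :
    cycleLengths G ⊆ (((Zf (eF G)).image Finset.card : Finset ℕ) : Set ℕ) := by
  intro k hk
  obtain ⟨Z, h1, h2, h3⟩ := cyc_eF G hk
  rw [Finset.mem_coe, Finset.mem_image]
  exact ⟨Z, mem_Zf.2 ⟨h1, (cyc_ev h2).1⟩, h3⟩

theorem cycleLengths_finite {N : ℕ} (G : SimpleGraph (Fin N)) : (cycleLengths G).Finite :=
  (Finset.finite_toSet _).subset (cycleLengths_sub G)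

theorem logb_Zf_le {N : ℕ} (E : Finset (Sym2 (Fin N))) (hE : NL E) :
    Real.logb 2 ((Zf E).card : ℝ) ≤ (E.card : ℝ) - N +
      (Nat.card (SimpleGraph.fromEdgeSet (E : Set (Sym2 (Fin N)))).ConnectedComponent : ℝ) := by
  have h := Y393J.Zf_le_cyclomatic E hE
  rw [Fintype.card_fin] at h
  have hpos : (0 : ℝ) < ((Zf E).card : ℝ) := by exact_mod_cast Zf_card_pos E
  have h2 : ((Zf E).card : ℝ) * 2 ^ N ≤ 2 ^ (E.card +
      Nat.card (SimpleGraph.fromEdgeSet (E : Set (Sym2 (Fin N)))).ConnectedComponent) := by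
    exact_mod_cast h
  have h3 := Real.logb_le_logb_of_le (b := 2) (by norm_num) (by positivity) h2
  rw [Real.logb_mul hpos.ne' (by positivity), Real.logb_pow, Real.logb_pow,
    Real.logb_self_eq_one (by norm_num)] at h3
  push_cast at h3
  linarith

theorem edgeSet_from {N : ℕ} {E : Finset (Sym2 (Fin N))} (hE : NL E) :
    (SimpleGraph.fromEdgeSet (E : Set (Sym2 (Fin N)))).edgeSet = (E : Set (Sym2 (Fin N))) := by
  rw [SimpleGraph.edgeSet_fromEdgeSet]
  ext e
  constructor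
  · exact fun h => h.1
  · exact fun h => ⟨h, hE e h⟩

theorem main (C : ℝ) (M : ℕ) : ∃ L : ℕ, M + 4 ≤ L ∧ ∀ (N : ℕ) (G : SimpleGraph (Fin N)),
    missing G L ≤ M →
      (∃ H ≤ G, H.edgeSet.ncard ≤ L ∧
        Real.logb 2 ((H.edgeSet.ncard : ℝ) + 1) + C ≤ cyclomatic H) ∧
      Real.logb 2 ((cycleLengths G).ncard : ℝ) + C ≤ cyclomatic G ∧
      (circumference G : ℝ) + Real.logb 2 ((cycleLengths G).ncard : ℝ) + C ≤
        (G.edgeSet.ncard : ℝ) := by
  classical
  obtain ⟨L, hL4, hL⟩ := Y393J.local_missing ((2 : ℝ) ^ (C + 1)) (by positivity) M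
  refine ⟨L, hL4, fun N G hG => ?_⟩
  obtain ⟨H, hHE, hHL, hH⟩ := hL N (eF G) (by
    refine ⟨(missing_finite G L).toFinset, ?_, ?_⟩
    · rw [← Set.ncard_eq_toFinset_card _ (missing_finite G L)]
      exact hG
    · intro k hk hkL hkB
      rw [Set.Finite.mem_toFinset] at hkB
      apply cyc_eF
      by_contra hcon
      exact hkB ⟨hk, hkL, hcon⟩)
  have hHNL : NL H := fun e he => eF_NL G e (hHE he)
  have hK : (0 : ℝ) < (2 : ℝ) ^ (C + 1) := by positivity
  have hlogK : Real.logb 2 ((2 : ℝ) ^ (C + 1)) = C + 1 :=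
    Real.logb_rpow (by norm_num) (by norm_num)
  -- number of cycle lengths
  obtain ⟨k0, hk0, -⟩ := exists_present G hG (a := 3) le_rfl (by omega)
  have hspos : 0 < (cycleLengths G).ncard :=
    (Set.ncard_pos (cycleLengths_finite G)).2 ⟨k0, hk0⟩
  have hs1 : (cycleLengths G).ncard ≤ ((Zf (eF G)).image Finset.card).card := by
    have := Set.ncard_le_ncard (cycleLengths_sub G) (Finset.finite_toSet _)
    rwa [Set.ncard_coe_finset] at this
  have hcb := coset_bound hHE
  have hcb' : ((Zf H).card : ℝ) * ((cycleLengths G).ncard : ℝ) ≤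
      ((Zf (eF G)).card : ℝ) * ((H.card : ℝ) + 1) := by
    have : (Zf H).card * (cycleLengths G).ncard ≤ (Zf (eF G)).card * (H.card + 1) :=
      (Nat.mul_le_mul_left _ hs1).trans hcb
    exact_mod_cast this
  have hsr : (0 : ℝ) < ((cycleLengths G).ncard : ℝ) := by exact_mod_cast hspos
  have hkey : (2 : ℝ) ^ (C + 1) * ((cycleLengths G).ncard : ℝ) ≤ ((Zf (eF G)).card : ℝ) := by
    have h1 : ((2 : ℝ) ^ (C + 1) * ((cycleLengths G).ncard : ℝ)) * ((H.card : ℝ) + 1) ≤
        ((Zf (eF G)).card : ℝ) * ((H.card : ℝ) + 1) := by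
      calc ((2 : ℝ) ^ (C + 1) * ((cycleLengths G).ncard : ℝ)) * ((H.card : ℝ) + 1)
          = ((2 : ℝ) ^ (C + 1) * ((H.card : ℝ) + 1)) * ((cycleLengths G).ncard : ℝ) := by ring
        _ ≤ ((Zf H).card : ℝ) * ((cycleLengths G).ncard : ℝ) :=
            mul_le_mul_of_nonneg_right hH.le hsr.le
        _ ≤ _ := hcb'
    exact le_of_mul_le_mul_right h1 (by positivity)
  have hlog : C + 1 + Real.logb 2 ((cycleLengths G).ncard : ℝ) ≤
      Real.logb 2 ((Zf (eF G)).card : ℝ) := by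
    have h1 := Real.logb_le_logb_of_le (b := 2) (by norm_num) (by positivity) hkey
    rwa [Real.logb_mul hK.ne' hsr.ne', hlogK] at h1
  refine ⟨⟨SimpleGraph.fromEdgeSet (H : Set (Sym2 (Fin N))), ?_, ?_, ?_⟩, ?_, ?_⟩
  · rw [← SimpleGraph.edgeSet_subset_edgeSet, edgeSet_from hHNL]
    intro e he
    exact (mem_eF G e).1 (hHE he)
  · rw [edgeSet_from hHNL, Set.ncard_coe_finset]
    exact hHL
  · unfold cyclomatic
    rw [edgeSet_from hHNL, Set.ncard_coe_finset]
    have h1 := logb_Zf_le H hHNL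
    have h2 := Real.logb_le_logb_of_le (b := 2) (by norm_num) (by positivity) hH.le
    rw [Real.logb_mul hK.ne' (by positivity), hlogK] at h2
    linarith
  · unfold cyclomatic
    have h1 := logb_Zf_le (eF G) (eF_NL G)
    have h2 : SimpleGraph.fromEdgeSet ((eF G : Finset (Sym2 (Fin N))) : Set (Sym2 (Fin N))) = G := by
      have : ((eF G : Finset (Sym2 (Fin N))) : Set (Sym2 (Fin N))) = G.edgeSet := by
        ext e; rw [Finset.mem_coe, mem_eF]
      rw [this, SimpleGraph.fromEdgeSet_edgeSet]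
    rw [h2, card_eF] at h1
    linarith
  · have hc : circumference G ∈ cycleLengths G :=
      Nat.sSup_mem ⟨k0, hk0⟩ (cycleLengths_finite G).bddAbove
    obtain ⟨Z, hZ1, hZ2, hZ3⟩ := cyc_eF G hc
    have h1 := Zf_le_of_cycle hZ2 hZ1
    have h2 : Z.card ≤ (eF G).card := Finset.card_le_card hZ1
    have hpos : (0 : ℝ) < ((Zf (eF G)).card : ℝ) := by exact_mod_cast Zf_card_pos (eF G)
    have h3 : ((Zf (eF G)).card : ℝ) ≤ 2 ^ ((eF G).card - Z.card + 1) := by exact_mod_cast h1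
    have h4 := Real.logb_le_logb_of_le (b := 2) (by norm_num) hpos h3
    rw [Real.logb_pow, Real.logb_self_eq_one (by norm_num)] at h4
    push_cast [Nat.cast_sub h2] at h4
    rw [hZ3, card_eF] at h4
    linarith

theorem top_cycles (n : ℕ) (k : ℕ) (hk : 3 ≤ k) (hkn : k ≤ n) :
    k ∈ cycleLengths (⊤ : SimpleGraph (Fin n)) := by
  show ∃ (v : Fin n) (p : (⊤ : SimpleGraph (Fin n)).Walk v v), p.IsCycle ∧ p.length = k
  rw [← SimpleGraph.cycleGraph_isContained_iff (by omega : 2 < k)]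
  exact SimpleGraph.isContained_top_iff.mpr ⟨Fin.castLEEmb hkn⟩

theorem missing_eq_zero {V : Type} (G : SimpleGraph V) (n : ℕ)
    (h : ∀ k : ℕ, 3 ≤ k → k ≤ n → k ∈ cycleLengths G) : missing G n = 0 := by
  unfold missing
  have : {k : ℕ | 3 ≤ k ∧ k ≤ n ∧ k ∉ cycleLengths G} = ∅ := by
    ext k
    simp only [Set.mem_setOf_eq, Set.mem_empty_iff_false, iff_false]
    rintro ⟨h1, h2, h3⟩
    exact h3 (h k h1 h2)
  rw [this, Set.ncard_empty]

theorem g_attained (n : ℕ) : ∃ (N : ℕ) (G : SimpleGraph (Fin N)),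
    G.edgeSet.ncard = g n ∧ ∀ k : ℕ, 3 ≤ k → k ≤ n → k ∈ cycleLengths G :=
  Nat.sInf_mem (s := {m : ℕ | ∃ (N : ℕ) (G : SimpleGraph (Fin N)),
    G.edgeSet.ncard = m ∧ ∀ k : ℕ, 3 ≤ k → k ≤ n → k ∈ cycleLengths G})
    ⟨_, n, ⊤, rfl, fun k hk hkn => top_cycles n k hk hkn⟩

theorem gExc_attained (M n : ℕ) : ∃ (N : ℕ) (G : SimpleGraph (Fin N)),
    G.edgeSet.ncard = gExc M n ∧ missing G n ≤ M :=
  Nat.sInf_mem (s := {m : ℕ | ∃ (N : ℕ) (G : SimpleGraph (Fin N)),
    G.edgeSet.ncard = m ∧ missing G n ≤ M})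
    ⟨_, n, ⊤, rfl, by
      rw [missing_eq_zero ⊤ n (fun k hk hkn => top_cycles n k hk hkn)]; exact Nat.zero_le _⟩

theorem card_lower {N : ℕ} (G : SimpleGraph (Fin N)) {M n : ℕ} (h : missing G n ≤ M) :
    n ≤ (cycleLengths G).ncard + M + 2 := by
  have hsub : (Finset.Icc 3 n : Set ℕ) ⊆
      cycleLengths G ∪ {k : ℕ | 3 ≤ k ∧ k ≤ n ∧ k ∉ cycleLengths G} := by
    intro k hk
    rw [Finset.mem_coe, Finset.mem_Icc] at hk
    by_cases h1 : k ∈ cycleLengths G
    · exact Or.inl h1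
    · exact Or.inr ⟨hk.1, hk.2, h1⟩
  have h1 := Set.ncard_le_ncard hsub ((cycleLengths_finite G).union (missing_finite G n))
  have h2 := Set.ncard_union_le (cycleLengths G) {k : ℕ | 3 ≤ k ∧ k ≤ n ∧ k ∉ cycleLengths G}
  rw [Set.ncard_coe_finset, Nat.card_Icc] at h1
  unfold missing at h
  omega

theorem dense (C : ℝ) (M : ℕ) (δ : ℝ) (hδ : 0 < δ) : ∃ L : ℕ, ∀ n : ℕ, 1 ≤ n →
    ∀ (N : ℕ) (G : SimpleGraph (Fin N)), (∃ k ∈ cycleLengths G, n ≤ k) →
      δ * n ≤ ((cycleLengths G).ncard : ℝ) → missing G L ≤ M →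
        (n : ℝ) + Real.logb 2 n + C ≤ (G.edgeSet.ncard : ℝ) := by
  obtain ⟨L, -, hL⟩ := main (C - Real.logb 2 δ) M
  refine ⟨L, fun n hn N G ⟨k, hk, hnk⟩ hd hG => ?_⟩
  obtain ⟨-, -, h1⟩ := hL N G hG
  have h2 : k ≤ circumference G := le_csSup (cycleLengths_finite G).bddAbove hk
  have h3 : (n : ℝ) ≤ (circumference G : ℝ) := by exact_mod_cast hnk.trans h2
  have hnpos : (0 : ℝ) < n := by exact_mod_cast hn
  have h4 := Real.logb_le_logb_of_le (b := 2) (by norm_num) (by positivity) hd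
  rw [Real.logb_mul hδ.ne' hnpos.ne'] at h4
  linarith

theorem gExc_tendsto (M : ℕ) :
    Tendsto (fun n : ℕ => (gExc M n : ℝ) - n - Real.logb 2 n) atTop atTop := by
  rw [tendsto_atTop]
  intro C
  obtain ⟨L, hL4, hL⟩ := main (C + M + 1) M
  filter_upwards [eventually_ge_atTop (L + 2 * (M + 2))] with n hn
  obtain ⟨N, G, hG, hGM⟩ := gExc_attained M n
  obtain ⟨-, -, h1⟩ := hL N G ((missing_mono G (by omega)).trans hGM)
  obtain ⟨k, hk, hk1, -⟩ := exists_present G hGM (a := n - M) (by omega) (by omega)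
  have h2 : k ≤ circumference G := le_csSup (cycleLengths_finite G).bddAbove hk
  have h3 : (n : ℝ) ≤ (circumference G : ℝ) + M := by
    have : n ≤ circumference G + M := by omega
    exact_mod_cast this
  have h4 : n ≤ 2 * (cycleLengths G).ncard := by
    have := card_lower G hGM
    omega
  have h5 : (n : ℝ) ≤ 2 * ((cycleLengths G).ncard : ℝ) := by exact_mod_cast h4
  have hnpos : (0 : ℝ) < n := by
    have : 0 < n := by omega
    exact_mod_cast this
  have hspos : (0 : ℝ) < ((cycleLengths G).ncard : ℝ) := by linarith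
  have h6 := Real.logb_le_logb_of_le (b := 2) (by norm_num) hnpos h5
  rw [Real.logb_mul (by norm_num) hspos.ne', Real.logb_self_eq_one (by norm_num)] at h6
  rw [← hG]
  linarith

theorem g_tendsto : Tendsto (fun n : ℕ => (g n : ℝ) - n - Real.logb 2 n) atTop atTop := by
  refine tendsto_atTop_mono (fun n => ?_) (gExc_tendsto 0)
  obtain ⟨N, G, hG, hall⟩ := g_attained n
  have h1 : gExc 0 n ≤ g n := by
    apply Nat.sInf_le
    exact ⟨N, G, hG, (missing_eq_zero G n hall).le⟩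
  have h2 : (gExc 0 n : ℝ) ≤ (g n : ℝ) := by exact_mod_cast h1
  linarith

/-- For all `C` and `M` there is `L` such that every finite simple graph which has cycles of all
lengths `3, …, L` with at most `M` exceptions has cyclomatic number at least
`log₂ (number of its cycle lengths) + C`, number of edges at least
`circumference + log₂ (number of its cycle lengths) + C`, and a subgraph `H` with at most `L` edges
and cyclomatic number at least `log₂ (|E(H)| + 1) + C`; the version for a positive proportion of the lengths; the least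
number of edges with at most `M` exceptional lengths exceeds `n + log₂ n` by an unbounded amount;
and the negative answer to Jia's question. -/
theorem result :
    (∀ (C : ℝ) (M : ℕ), ∃ L : ℕ, ∀ (N : ℕ) (G : SimpleGraph (Fin N)), missing G L ≤ M →
      (∃ H ≤ G, H.edgeSet.ncard ≤ L ∧
        Real.logb 2 ((H.edgeSet.ncard : ℝ) + 1) + C ≤ cyclomatic H) ∧
      Real.logb 2 ((cycleLengths G).ncard : ℝ) + C ≤ cyclomatic G ∧
      (circumference G : ℝ) + Real.logb 2 ((cycleLengths G).ncard : ℝ) + C ≤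
        (G.edgeSet.ncard : ℝ)) ∧
    (∀ (C : ℝ) (M : ℕ) (δ : ℝ), 0 < δ → ∃ L : ℕ, ∀ n : ℕ, 1 ≤ n →
      ∀ (N : ℕ) (G : SimpleGraph (Fin N)), (∃ k ∈ cycleLengths G, n ≤ k) →
        δ * n ≤ ((cycleLengths G).ncard : ℝ) → missing G L ≤ M →
          (n : ℝ) + Real.logb 2 n + C ≤ (G.edgeSet.ncard : ℝ)) ∧
    (∀ M : ℕ, Tendsto (fun n : ℕ => (gExc M n : ℝ) - n - Real.logb 2 n) atTop atTop) ∧
    Tendsto (fun n : ℕ => (g n : ℝ) - n - Real.logb 2 n) atTop atTop ∧
    ¬ ∃ C : ℝ, ∀ᶠ n : ℕ in atTop, |(g n : ℝ) - n - Real.logb 2 n| ≤ C := by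
  refine ⟨fun C M => ?_, dense, gExc_tendsto, g_tendsto, ?_⟩
  · obtain ⟨L, -, hL⟩ := main C M
    exact ⟨L, hL⟩
  · rintro ⟨C, hC⟩
    have h1 := (tendsto_atTop.1 g_tendsto) (C + 1)
    obtain ⟨n, hn1, hn2⟩ := (hC.and h1).exists
    have := le_abs_self ((g n : ℝ) - n - Real.logb 2 n)
    linarith

end Pool.Agent.Results.MP_45f6a5_co.LocalObstruction
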